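import Pool.Agent.H60.BCP.GRA

/-!
# Row GRD of board bcp_modules: chain condition
-/

set_option autoImplicit false

open Set Pool.Agent.H77.BC

namespace Pool.Agent.H68.BCP

variable {M : Type} {U : RU M}

theorem no_chain (hA : RKA U) (hB : RKB U) {Γ : Type} [Group Γ] [Cod M Γ] [DG U Γ]
    (t : ℕ → Subgroup Γ) (hD : ∀ n, U.D (t n : Set Γ)) (hlt : ∀ n, t (n + 1) < t n) : False := by
  have hanti : Antitone t := antitone_nat_of_succ_le fun n => (hlt n).le
  have hne : ∀ n, (t n : Set Γ).Nonempty := fun n => ⟨1, (t n).one_mem⟩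
  have hRa : ∀ m n, m ≤ n → U.R (t n : Set Γ) ≤ U.R (t m : Set Γ) := fun m n h =>
    hA.mono (hD n) (hD m) (hne n) (hanti h)
  obtain ⟨N, hN⟩ : ∃ N, ∀ n, U.R (t N : Set Γ) ≤ U.R (t n : Set Γ) := by
    have hex : (Set.range fun n => U.R (t n : Set Γ)).Nonempty := ⟨_, 0, rfl⟩
    obtain ⟨N, hN⟩ := Nat.sInf_mem hex
    refine ⟨N, fun n => ?_⟩
    have hN' : U.R (t N : Set Γ) = sInf (Set.range fun n => U.R (t n : Set Γ)) := hN
    rw [hN']
    exact Nat.sInf_le ⟨n, rfl⟩
  have hx : ∀ i, ∃ x, x ∈ t (N + i) ∧ x ∉ t (N + i + 1) := fun i =>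
    SetLike.exists_of_lt (hlt (N + i))
  choose x hx1 hx2 using hx
  have hBsub : ∀ i, (fun y => x i * y) '' (t (N + i + 1) : Set Γ) ⊆ (t (N + i) : Set Γ) := by
    rintro i _ ⟨y, hy, rfl⟩
    exact (t (N + i)).mul_mem (hx1 i) ((hlt (N + i)).le hy)
  have hdis : ∀ i j, i < j → Disjoint ((fun y => x i * y) '' (t (N + i + 1) : Set Γ))
      ((fun y => x j * y) '' (t (N + j + 1) : Set Γ)) := by
    intro i j hij
    rw [Set.disjoint_left]
    intro z hz1 hz2
    have h1 : z ∈ t (N + j) := hBsub j hz2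
    have h2 : z ∈ t (N + i + 1) := hanti (show N + i + 1 ≤ N + j by omega) h1
    obtain ⟨y, hy, hyz⟩ := hz1
    apply hx2 i
    have h3 : x i = z * y⁻¹ := by
      rw [← hyz]
      simp
    rw [h3]
    exact (t (N + i + 1)).mul_mem h2 ((t (N + i + 1)).inv_mem hy)
  have key := hA.split (n := U.R (t N : Set Γ)) (X := (t N : Set Γ))
    (fun i => (fun y => x i * y) '' (t (N + i + 1) : Set Γ)) (hD N) (fun i => by
      refine ⟨H60.BCP.coset_D _ (hD _), (hne _).image _, ?_, ?_⟩
      · exact (hBsub i).trans (hanti (Nat.le_add_right N i))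
      · show U.R (t N : Set Γ) ≤ U.R ((fun y => x i * y) '' (t (N + i + 1) : Set Γ))
        rw [H60.BCP.coset_R hB _ (hD _) (hne _)]
        exact hN _) (fun i j hij => by
      rcases lt_or_gt_of_ne hij with h | h
      · exact hdis i j h
      · exact (hdis j i h).symm)
  omega

theorem pf_GRD {M : Type} (U : RU M) (hA : RKA U) (hB : RKB U) (_hG : GRA U) : GRD U := by
  classical
  intro Γ _ _ _ I s hs
  by_contra hcon
  push Not at hcon
  choose g hg using hcon
  let J : ℕ → Finset I := fun n => Nat.rec ∅ (fun _ J => insert (g J) J) n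
  have hJ : ∀ n, J (n + 1) = insert (g (J n)) (J n) := fun n => rfl
  have hDJ : ∀ F : Finset I, U.D ((⨅ j ∈ F, s j : Subgroup Γ) : Set Γ) := by
    intro F
    induction F using Finset.induction with
    | empty =>
      have : ((⨅ j ∈ (∅ : Finset I), s j : Subgroup Γ) : Set Γ) = univ := by simp
      rw [this]
      exact Ful.full
    | insert a F _ ih =>
      rw [Finset.iInf_insert, Subgroup.coe_inf]
      exact D_inter (hs a) ih
  refine no_chain hA hB (fun n => ⨅ j ∈ J n, s j) (fun n => hDJ (J n)) fun n => ?_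
  show (⨅ j ∈ J (n + 1), s j) < ⨅ j ∈ J n, s j
  rw [hJ, Finset.iInf_insert]
  refine lt_of_le_of_ne inf_le_right fun h => hg (J n) ?_
  rw [← h]
  exact inf_le_left

end Pool.Agent.H68.BCP
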